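import Pool.Agent.Y283.WC.Ex

/-!
# Weighted composition operators whose symbol has no fixed point: the spectral radius is the
essential spectral radius

Let `φ` be a holomorphic self-map of the open unit ball of `ℂ^N` (of any finite-dimensional complex
inner product space `E`) without fixed points, and let `T f = ψ · (f ∘ φ)` be bounded on a Banach
space `X` of functions on the ball such that the bounded functions are dense in `X` and the norms of
the evaluations tend to infinity at the boundary.  Then the spectral radius of `T` equals the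
essential spectral radius of `T`.  In particular, if some power of `T` is compact, then the spectrum
of `T` is `{0}` and `T` has no nonzero eigenvalue.

For the Hardy space of the disc this contains the full answer to the question of the problem file
(compact `T`), as does the starting result `SpectrumZero`; new: operators which are not compact
(nor power compact), all spaces with the two properties above (for instance all weighted Hardy
spaces `H²(β)` with `∑ β(n)⁻² = ∞`: the Hardy, Bergman and Dirichlet spaces), several variables, and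
an arbitrary weight function `ψ`.
-/

set_option autoImplicit false

namespace Pool.Agent.Results.MP_4b0b35_an.EssentialRadius

open Metric Set

/-- `X` is (through `ev`, where `ev f z` is the value of `f` at `z`) a space of functions on the
open unit ball of `E`: the evaluations are linear and bounded and separate the points of `X`, the
bounded functions are dense in `X`, and the norms of the evaluations tend to infinity at the
boundary of the ball. -/
structure IsFunctionSpace (E : Type) [NormedAddCommGroup E] (X : Type) [NormedAddCommGroup X]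
    [NormedSpace ℂ X] (ev : X → E → ℂ) : Prop where
  add : ∀ f g, ∀ z ∈ ball (0 : E) 1, ev (f + g) z = ev f z + ev g z
  smul : ∀ (c : ℂ) f, ∀ z ∈ ball (0 : E) 1, ev (c • f) z = c * ev f z
  bounded : ∀ z ∈ ball (0 : E) 1, ∃ C : ℝ, ∀ f, ‖ev f z‖ ≤ C * ‖f‖
  injective : ∀ f, (∀ z ∈ ball (0 : E) 1, ev f z = 0) → f = 0
  dense : Dense {f : X | ∃ M : ℝ, ∀ z ∈ ball (0 : E) 1, ‖ev f z‖ ≤ M}
  large : ∀ M : ℝ, ∃ r < 1, ∀ z ∈ ball (0 : E) 1, r < ‖z‖ → ∃ f : X, M * ‖f‖ < ‖ev f z‖

/-- `T` is the weighted composition operator `f ↦ ψ · (f ∘ φ)`. -/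
def IsWeightedComposition {E X : Type} [NormedAddCommGroup E] [NormedAddCommGroup X]
    [NormedSpace ℂ X] (ev : X → E → ℂ) (ψ : E → ℂ) (φ : E → E) (T : X →L[ℂ] X) : Prop :=
  ∀ f : X, ∀ z ∈ ball (0 : E) 1, ev (T f) z = ψ z * ev f (φ z)

/-- The essential norm: the distance of `T` to the compact operators. -/
noncomputable def essNorm {X : Type} [NormedAddCommGroup X] [NormedSpace ℂ X]
    (T : X →L[ℂ] X) : ℝ := infDist T {K | IsCompactOperator K}

/-- The essential spectral radius, the infimum (which is the limit) of `‖T ^ n‖ₑ ^ (1 / n)`,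
`n ≥ 1`, where `‖·‖ₑ` is the essential norm. -/
noncomputable def essRadius {X : Type} [NormedAddCommGroup X] [NormedSpace ℂ X]
    (T : X →L[ℂ] X) : ℝ :=
  ⨅ n : ℕ, essNorm (T ^ (n + 1)) ^ (1 / ((n : ℝ) + 1))

/-- The Hardy space of the unit disc: square-summable sequences of Taylor coefficients. -/
abbrev H2 : Type := ↥(lp (fun _ : ℕ => ℂ) 2)

/-- The value at `z` of the function whose Taylor coefficients are `a`. -/
noncomputable def val (a : H2) (z : ℂ) : ℂ := ∑' n : ℕ, a n * z ^ n

/-- The weighted Hardy space `H²(β)` of the power series `∑ c n z ^ n` with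
`‖c‖² = ∑ |c n|² (β n)² < ∞` is identified with the space `H2` of square-summable sequences by
`a n = β n * c n`; this is the value at `z` of the function with the coordinates `a`. -/
noncomputable def bval (β : ℕ → ℝ) (a : H2) (z : ℂ) : ℂ := ∑' n : ℕ, a n / β n * z ^ n

/-- `φ` is a holomorphic self-map of the open unit ball without fixed points. -/
structure IsFreeSelfMap {E : Type} [NormedAddCommGroup E] [NormedSpace ℂ E] (φ : E → E) :
    Prop where
  holo : DifferentiableOn ℂ φ (ball (0 : E) 1)
  maps : MapsTo φ (ball (0 : E) 1) (ball (0 : E) 1)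
  free : ∀ z ∈ ball (0 : E) 1, φ z ≠ z

/-- The spectrum of `T` is `{0}` and `T` has no nonzero eigenvalue. -/
def ZeroSpectrum {X : Type} [NormedAddCommGroup X] [NormedSpace ℂ X] (T : X →L[ℂ] X) : Prop :=
  spectrum ℂ T = {0} ∧ ∀ μ : ℂ, μ ≠ 0 → ∀ f : X, T f = μ • f → f = 0

/-- The weights of part (2): `∑ r ^ n / β(n)² < ∞` for `0 ≤ r < 1` and `∑ 1 / β(n)² = ∞`. -/
def IsWeight (β : ℕ → ℝ) : Prop :=
  (∀ n, 0 < β n) ∧ (∀ r : ℝ, 0 ≤ r → r < 1 → Summable fun n => r ^ n / β n ^ 2) ∧
    ¬ Summable fun n => 1 / β n ^ 2

/-- **Main theorem.**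

(1) Let `φ` be a holomorphic self-map without fixed points of the open unit ball of a
finite-dimensional complex inner product space and `T f = ψ · (f ∘ φ)` a bounded operator of a
Banach space of functions on the ball (as in `IsFunctionSpace`).  Then the spectral radius of `T`
is its essential spectral radius; and if some power `T ^ n`, `n ≥ 1`, is compact, then the spectrum
of `T` is `{0}` and `T` has no nonzero eigenvalue.

(2) The weighted Hardy spaces `H²(β)` of the disc with `∑ r ^ n / β(n)² < ∞` for `0 ≤ r < 1` and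
`∑ 1 / β(n)² = ∞` are such spaces.

(3) Hence, for the Hardy space of the disc: if `φ` has no fixed point in the disc and
`T f = ψ · (f ∘ φ)` is bounded, then the spectral radius of `T` is the essential spectral radius of
`T`; if moreover `T` is compact, then its spectrum is `{0}`, and there are no nonzero
eigenvalues. -/
theorem result :
    (∀ (E : Type) [NormedAddCommGroup E] [InnerProductSpace ℂ E] [FiniteDimensional ℂ E]
      (X : Type) [NormedAddCommGroup X] [NormedSpace ℂ X] [CompleteSpace X] (ev : X → E → ℂ),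
      IsFunctionSpace E X ev → ∀ (ψ : E → ℂ) (φ : E → E), IsFreeSelfMap φ →
        ∀ T : X →L[ℂ] X, IsWeightedComposition ev ψ φ T →
          spectralRadius ℂ T = ENNReal.ofReal (essRadius T) ∧
          ((∃ n : ℕ, 1 ≤ n ∧ IsCompactOperator (⇑(T ^ n))) → ZeroSpectrum T)) ∧
    (∀ β : ℕ → ℝ, IsWeight β → IsFunctionSpace ℂ H2 (bval β)) ∧
    (∀ (ψ φ : ℂ → ℂ), IsFreeSelfMap φ → ∀ T : H2 →L[ℂ] H2, IsWeightedComposition val ψ φ T →
      spectralRadius ℂ T = ENNReal.ofReal (essRadius T) ∧
      (IsCompactOperator (⇑T) → ZeroSpectrum T)) := by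
  have hA : ∀ (E : Type) [NormedAddCommGroup E] [InnerProductSpace ℂ E] [FiniteDimensional ℂ E]
      (X : Type) [NormedAddCommGroup X] [NormedSpace ℂ X] [CompleteSpace X] (ev : X → E → ℂ),
      IsFunctionSpace E X ev → ∀ (ψ : E → ℂ) (φ : E → E), IsFreeSelfMap φ →
        ∀ T : X →L[ℂ] X, IsWeightedComposition ev ψ φ T →
          spectralRadius ℂ T = ENNReal.ofReal (essRadius T) ∧
          ((∃ n : ℕ, 1 ≤ n ∧ IsCompactOperator (⇑(T ^ n))) → ZeroSpectrum T) := by
    rintro E _ _ _ X _ _ _ ev h ψ φ ⟨hφ, hm, hfix⟩ T hT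
    have h' : Pool.Agent.Y283.WC.IsFunctionSpace E X ev :=
      ⟨h.add, h.smul, h.bounded, h.injective, h.dense, h.large⟩
    refine ⟨Pool.Agent.Y283.WC.general h' hφ hm hfix hT, ?_⟩
    rintro ⟨n, hn, hc⟩
    exact Pool.Agent.Y283.WC.quasi h' hφ hm hfix hT
      (Pool.Agent.Y283.WC.essRadius_eq_zero T hn hc)
  have hB : ∀ β : ℕ → ℝ, IsWeight β → IsFunctionSpace ℂ H2 (bval β) := by
    rintro β ⟨h1, h2, h3⟩
    have h := Pool.Agent.Y283.WC.isFS ⟨h1, h2, h3⟩
    exact ⟨h.add, h.smul, h.bounded, h.injective, h.dense, h.large⟩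
  refine ⟨hA, hB, ?_⟩
  intro ψ φ hφ T hT
  have h1 : IsFunctionSpace ℂ H2 val := by
    have h2 := hB (fun _ => 1) ⟨fun _ => one_pos,
      fun r h0 h1 => by simpa using summable_geometric_of_lt_one h0 h1, by
        intro hs
        have h3 := hs.tendsto_atTop_zero
        simp at h3⟩
    have h3 : bval (fun _ => 1) = val := by
      funext a z
      unfold bval val
      simp
    rwa [h3] at h2
  obtain ⟨h2, h3⟩ := hA ℂ H2 val h1 ψ φ hφ T hT
  exact ⟨h2, fun hc => h3 ⟨1, le_rfl, by rwa [pow_one]⟩⟩

end Pool.Agent.Results.MP_4b0b35_an.EssentialRadius
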